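import Pool.Agent.Helper82.ZS.Fr

/-! Project ZS, piece A2: the sign of the action on cosets -/

set_option autoImplicit false

namespace Pool.Agent.Helper39.ZS

open Pool.Agent.Helper82.ZS

theorem sign_perm {α : Type} [Fintype α] [DecidableEq α] (σ : Equiv.Perm α) (m : ℕ)
    (hc : Fintype.card α = 2 * m) (hm : Odd m) (h1 : ∀ a, σ a ≠ a) (h2 : ∀ a, σ (σ a) = a) :
    Equiv.Perm.sign σ = -1 := by
  have h3 : σ ^ 2 = 1 := by
    ext a
    rw [pow_two, Equiv.Perm.mul_apply, h2]
    rfl
  have h4 : IsEmpty (Function.fixedPoints σ) := ⟨fun a => h1 a.1 a.2⟩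
  rw [Equiv.Perm.sign_of_pow_two_eq_one h3, Fintype.card_eq_zero (α := Function.fixedPoints σ),
    Nat.sub_zero, hc, Nat.mul_div_cancel_left m (by norm_num), hm.neg_one_pow]

theorem s_A2 : S_A2 := by
  classical
  intro G _ _ C s m hC hm h1 h2
  have : Fintype (G ⧸ C) := Fintype.ofFinite _
  have hcard : Fintype.card (G ⧸ C) = 2 * m := by
    rw [← Nat.card_eq_fintype_card]
    exact hC
  obtain ⟨f, hf⟩ : ∃ f : G →* ℤˣ, f = Equiv.Perm.sign.comp (MulAction.toPermHom G (G ⧸ C)) :=
    ⟨_, rfl⟩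
  have hs : f s = -1 := by
    rw [hf]
    apply sign_perm _ m hcard hm
    · intro a ha
      obtain ⟨g, rfl⟩ := QuotientGroup.mk_surjective a
      have h3 : ((s * g : G) : G ⧸ C) = (g : G ⧸ C) := ha
      have h4 := QuotientGroup.eq.1 h3.symm
      apply h1 g
      rwa [← mul_assoc] at h4
    · intro a
      obtain ⟨g, rfl⟩ := QuotientGroup.mk_surjective a
      have h3 : ((s * (s * g) : G) : G ⧸ C) = (g : G ⧸ C) := by
        symm
        rw [QuotientGroup.eq]
        have h4 := h2 g
        rw [pow_two] at h4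
        simpa only [mul_assoc] using h4
      exact h3
  refine ⟨f.ker, ?_⟩
  rw [Subgroup.index_ker]
  have hr : f.range = ⊤ := by
    rw [eq_top_iff]
    intro u _
    rcases Int.units_eq_one_or u with rfl | rfl
    · exact one_mem _
    · exact ⟨s, hs⟩
  rw [hr, Subgroup.card_top]
  simp

end Pool.Agent.Helper39.ZS
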